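import Mathlib

set_option autoImplicit false

namespace Pool.Agent.Results.MP_282bcf_an.TopElement

/-!
Let `Lat A` be a chain. The sets of approximate eigenvalues of `A*` on the orthogonal complements of
the proper members of `Lat A` are nonempty, compact and nested, so they have a common point, whose
conjugate we call `μ`. By the uniform boundedness principle there is a vector `x` outside
`M + (A - μ) H` for every proper member `M` of `Lat A`. Then the invariant subspaces of the operator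
`(h, c) ↦ (A h + c x, μ c)` on `H ⊕ ℂ` are the spaces `M ⊕ 0` with `M` in `Lat A` and the whole space.
-/

universe u

/-- The set of closed subspaces of `H` that are invariant under the bounded operator `A`, ordered by
inclusion. -/
def Lat {H : Type*} [NormedAddCommGroup H] [InnerProductSpace ℂ H] (A : H →L[ℂ] H) :
    Set (Submodule ℂ H) :=
  {M | IsClosed (M : Set H) ∧ ∀ x ∈ M, A x ∈ M}

/-- `L` is attainable: it is order-isomorphic to the lattice of invariant subspaces of a bounded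
operator on some nonzero separable complex Hilbert space. -/
def Attainable (L : Type u) [PartialOrder L] : Prop :=
  ∃ (H : Type) (_ : NormedAddCommGroup H) (_ : InnerProductSpace ℂ H) (_ : CompleteSpace H)
    (_ : TopologicalSpace.SeparableSpace H) (_ : Nontrivial H) (A : H →L[ℂ] H),
    Nonempty (L ≃o Lat A)

section spectral

variable {E : Type*} [NormedAddCommGroup E] [NormedSpace ℂ E] [CompleteSpace E] [Nontrivial E]

/-- A bounded operator on a nonzero complex Banach space has an approximate eigenvalue. -/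
theorem exists_approx_eigenvalue (R : E →L[ℂ] E) :
    ∃ μ : ℂ, ¬ ∃ c : ℝ, 0 < c ∧ ∀ y : E, c * ‖y‖ ≤ ‖R y - μ • y‖ := by
  obtain ⟨μ, hμ, hmax⟩ := (spectrum.isCompact (𝕜 := ℂ) R).exists_isMaxOn (spectrum.nonempty R)
    (continuous_norm.continuousOn)
  refine ⟨μ, ?_⟩
  rintro ⟨c, hc, hbd⟩
  -- choose a nearby point of the resolvent set
  obtain ⟨ν, hν, hd⟩ : ∃ ν : ℂ, ν ∉ spectrum ℂ R ∧ ‖μ - ν‖ < c / 2 := by
    by_cases h0 : μ = 0
    · refine ⟨((c / 4 : ℝ) : ℂ), ?_, ?_⟩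
      · intro h
        have := hmax h
        simp only [Set.mem_ofPred_eq] at this
        rw [h0, norm_zero, Complex.norm_real, Real.norm_eq_abs, abs_of_pos (by positivity)] at this
        linarith
      · rw [h0, zero_sub, norm_neg, Complex.norm_real, Real.norm_eq_abs, abs_of_pos (by positivity)]
        linarith
    · have hpos : 0 < ‖μ‖ := norm_pos_iff.2 h0
      set t : ℝ := c / (4 * ‖μ‖) with ht
      have htpos : 0 < t := by positivity
      refine ⟨(1 + (t : ℂ)) * μ, ?_, ?_⟩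
      · intro h
        have := hmax h
        simp only [Set.mem_ofPred_eq] at this
        rw [norm_mul] at this
        have h1 : ‖(1 + (t : ℂ))‖ = 1 + t := by
          rw [← Complex.ofReal_one, ← Complex.ofReal_add, Complex.norm_real, Real.norm_eq_abs,
            abs_of_pos (by positivity)]
        rw [h1] at this
        nlinarith
      · have h1 : μ - (1 + (t : ℂ)) * μ = -((t : ℂ) * μ) := by ring
        rw [h1, norm_neg, norm_mul, Complex.norm_real, Real.norm_eq_abs, abs_of_pos htpos, ht]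
        have h2 : c / (4 * ‖μ‖) * ‖μ‖ = c / 4 := by field_simp
        rw [h2]; linarith
  -- the resolvent
  rw [spectrum.notMem_iff] at hν
  obtain ⟨U, hU⟩ := hν
  have hUapp : ∀ y : E, (U : E →L[ℂ] E) y = ν • y - R y := by
    intro y
    rw [hU]
    simp [Algebra.algebraMap_eq_smul_one]
  have hlow : ∀ y : E, (c / 2) * ‖y‖ ≤ ‖(U : E →L[ℂ] E) y‖ := by
    intro y
    have h1 := hbd y
    have h2 : R y - μ • y = -((U : E →L[ℂ] E) y) - (μ - ν) • y := by
      rw [hUapp, sub_smul]; abel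
    have h3 : ‖R y - μ • y‖ ≤ ‖(U : E →L[ℂ] E) y‖ + ‖μ - ν‖ * ‖y‖ := by
      rw [h2]
      calc ‖-((U : E →L[ℂ] E) y) - (μ - ν) • y‖ ≤ ‖-((U : E →L[ℂ] E) y)‖ + ‖(μ - ν) • y‖ :=
            norm_sub_le _ _
        _ = ‖(U : E →L[ℂ] E) y‖ + ‖μ - ν‖ * ‖y‖ := by rw [norm_neg, norm_smul]
    have h4 : ‖μ - ν‖ * ‖y‖ ≤ c / 2 * ‖y‖ := mul_le_mul_of_nonneg_right hd.le (norm_nonneg y)
    linarith
  have hinv : ‖((U⁻¹ : (E →L[ℂ] E)ˣ) : E →L[ℂ] E)‖ ≤ 2 / c := by
    apply ContinuousLinearMap.opNorm_le_bound _ (by positivity)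
    intro z
    have h1 := hlow (((U⁻¹ : (E →L[ℂ] E)ˣ) : E →L[ℂ] E) z)
    have h2 : (U : E →L[ℂ] E) (((U⁻¹ : (E →L[ℂ] E)ˣ) : E →L[ℂ] E) z) = z := by
      rw [← mul_apply_eq_comp, Units.mul_inv, one_apply_eq_self]
    rw [h2] at h1
    rw [div_mul_eq_mul_div, le_div_iff₀ hc]
    linarith
  have hinvpos : 0 < ‖((U⁻¹ : (E →L[ℂ] E)ˣ) : E →L[ℂ] E)‖ := Units.norm_pos _
  have hclose : ‖(algebraMap ℂ (E →L[ℂ] E) μ - R) - (U : E →L[ℂ] E)‖ <
      ‖((U⁻¹ : (E →L[ℂ] E)ˣ) : E →L[ℂ] E)‖⁻¹ := by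
    have h1 : (algebraMap ℂ (E →L[ℂ] E) μ - R) - (U : E →L[ℂ] E) =
        algebraMap ℂ (E →L[ℂ] E) (μ - ν) := by
      rw [hU, map_sub]; abel
    rw [h1, norm_algebraMap']
    calc ‖μ - ν‖ < c / 2 := hd
      _ = (2 / c)⁻¹ := by rw [inv_div]
      _ ≤ ‖((U⁻¹ : (E →L[ℂ] E)ˣ) : E →L[ℂ] E)‖⁻¹ := inv_anti₀ hinvpos hinv
  apply hμ
  exact (Units.ofNearby U _ hclose).isUnit

end spectral


section chain

open ContinuousLinearMap

variable {H : Type*} [NormedAddCommGroup H] [InnerProductSpace ℂ H] [CompleteSpace H]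

/-- The approximate eigenvalues of the adjoint of `A` on the orthogonal complement of `M`. -/
def ap (A : H →L[ℂ] H) (M : Submodule ℂ H) : Set ℂ :=
  {μ | ¬ ∃ c : ℝ, 0 < c ∧ ∀ y ∈ Mᗮ, c * ‖y‖ ≤ ‖(adjoint A) y - μ • y‖}

theorem adjoint_mem {A : H →L[ℂ] H} {M : Submodule ℂ H} (hM : ∀ x ∈ M, A x ∈ M) {y : H}
    (hy : y ∈ Mᗮ) : (adjoint A) y ∈ Mᗮ := by
  rw [Submodule.mem_orthogonal] at *
  intro u hu
  rw [adjoint_inner_right]
  exact hy _ (hM u hu)

theorem ap_nonempty {A : H →L[ℂ] H} {M : Submodule ℂ H} (hM : M ∈ Lat A) (hM' : M ≠ ⊤) :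
    (ap A M).Nonempty := by
  have hcl : IsClosed (M : Set H) := hM.1
  have : CompleteSpace M := hcl.completeSpace_coe
  have hne : Mᗮ ≠ ⊥ := fun h => hM' (Submodule.orthogonal_eq_bot_iff.1 h)
  have : Nontrivial (Mᗮ : Submodule ℂ H) := Submodule.nontrivial_iff_ne_bot.2 hne
  obtain ⟨μ, hμ⟩ := exists_approx_eigenvalue
    ((adjoint A).restrict (p := Mᗮ) (q := Mᗮ) (fun x hx => adjoint_mem hM.2 hx))
  refine ⟨μ, ?_⟩
  rintro ⟨c, hc, hbd⟩
  apply hμ
  refine ⟨c, hc, fun y => ?_⟩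
  exact hbd y.1 y.2

theorem ap_anti {A : H →L[ℂ] H} {M N : Submodule ℂ H} (h : M ≤ N) : ap A N ⊆ ap A M := by
  intro μ hμ hc
  obtain ⟨c, hc, hbd⟩ := hc
  exact hμ ⟨c, hc, fun y hy => hbd y (Submodule.orthogonal_le h hy)⟩

theorem ap_closed (A : H →L[ℂ] H) (M : Submodule ℂ H) : IsClosed (ap A M) := by
  rw [← isOpen_compl_iff, Metric.isOpen_iff]
  intro μ hμ
  rw [Set.mem_compl_iff, ap, Set.mem_ofPred_eq, not_not] at hμ
  obtain ⟨c, hc, hbd⟩ := hμ
  refine ⟨c / 2, by positivity, ?_⟩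
  intro ν hν
  rw [Set.mem_compl_iff, ap, Set.mem_ofPred_eq, not_not]
  refine ⟨c / 2, by positivity, fun y hy => ?_⟩
  have h1 := hbd y hy
  rw [Metric.mem_ball, dist_eq_norm] at hν
  have h2 : (adjoint A) y - μ • y = ((adjoint A) y - ν • y) + (ν - μ) • y := by
    rw [sub_smul]; abel
  have h3 : ‖(adjoint A) y - μ • y‖ ≤ ‖(adjoint A) y - ν • y‖ + ‖ν - μ‖ * ‖y‖ := by
    rw [h2, ← norm_smul]
    exact norm_add_le _ _
  have h4 : ‖ν - μ‖ * ‖y‖ ≤ c / 2 * ‖y‖ := mul_le_mul_of_nonneg_right hν.le (norm_nonneg y)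
  linarith

theorem ap_subset (A : H →L[ℂ] H) (M : Submodule ℂ H) :
    ap A M ⊆ Metric.closedBall 0 ‖adjoint A‖ := by
  intro μ hμ
  rw [mem_closedBall_zero_iff]
  by_contra hcon
  push Not at hcon
  apply hμ
  refine ⟨‖μ‖ - ‖adjoint A‖, by linarith, fun y _ => ?_⟩
  have h1 : ‖μ • y‖ ≤ ‖(adjoint A) y - μ • y‖ + ‖(adjoint A) y‖ := by
    have : μ • y = (adjoint A) y - ((adjoint A) y - μ • y) := by abel
    calc ‖μ • y‖ = ‖(adjoint A) y - ((adjoint A) y - μ • y)‖ := by rw [← this]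
      _ ≤ ‖(adjoint A) y‖ + ‖(adjoint A) y - μ • y‖ := norm_sub_le _ _
      _ = _ := add_comm _ _
  have h2 : ‖(adjoint A) y‖ ≤ ‖adjoint A‖ * ‖y‖ := le_opNorm _ _
  rw [norm_smul] at h1
  linarith [sub_mul ‖μ‖ ‖adjoint A‖ ‖y‖]

/-- A common approximate eigenvalue for all proper members of a chain of invariant subspaces. -/
theorem exists_common [Nontrivial H] {A : H →L[ℂ] H}
    (hchain : ∀ M ∈ Lat A, ∀ N ∈ Lat A, M ≤ N ∨ N ≤ M) :
    ∃ μ : ℂ, ∀ M ∈ Lat A, M ≠ ⊤ → μ ∈ ap A M := by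
  have : Nonempty {M : Submodule ℂ H // M ∈ Lat A ∧ M ≠ ⊤} := by
    refine ⟨⟨⊥, ⟨?_, ?_⟩, bot_ne_top⟩⟩
    · rw [Submodule.bot_coe]; exact isClosed_singleton
    · intro x hx
      rw [Submodule.mem_bot] at *
      rw [hx, map_zero]
  obtain ⟨μ, hμ⟩ := IsCompact.nonempty_iInter_of_directed_nonempty_isCompact_isClosed
    (fun M : {M : Submodule ℂ H // M ∈ Lat A ∧ M ≠ ⊤} => ap A M.1)
    (by
      intro M N
      rcases hchain M.1 M.2.1 N.1 N.2.1 with h | h
      · exact ⟨N, ap_anti h, subset_refl _⟩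
      · exact ⟨M, subset_refl _, ap_anti h⟩)
    (fun M => ap_nonempty M.2.1 M.2.2)
    (fun M => (isCompact_closedBall _ _).of_isClosed_subset (ap_closed A M.1) (ap_subset A M.1))
    (fun M => ap_closed A M.1)
  refine ⟨μ, fun M hM hM' => ?_⟩
  rw [Set.mem_iInter] at hμ
  exact hμ ⟨M, hM, hM'⟩

open Classical in
/-- Running maxima of a sequence of subspaces. -/
noncomputable def runmax (W : ℕ → Submodule ℂ H) : ℕ → Submodule ℂ H
  | 0 => W 0
  | n + 1 => if runmax W n ≤ W (n + 1) then W (n + 1) else runmax W n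

omit [CompleteSpace H] in
/-- A chain of proper invariant subspaces has a countable cofinal sequence. -/
theorem exists_cofinal [Nontrivial H] [TopologicalSpace.SeparableSpace H] {A : H →L[ℂ] H}
    (hchain : ∀ M ∈ Lat A, ∀ N ∈ Lat A, M ≤ N ∨ N ≤ M) :
    ∃ K : ℕ → Submodule ℂ H, (∀ n, K n ∈ Lat A ∧ K n ≠ ⊤) ∧
      ∀ M ∈ Lat A, M ≠ ⊤ → ∃ n0, ∀ n, n0 ≤ n → M ≤ K n := by
  by_cases hbig : ∃ N, (N ∈ Lat A ∧ N ≠ ⊤) ∧ ∀ M ∈ Lat A, M ≠ ⊤ → M ≤ N
  · obtain ⟨N, hN, hN'⟩ := hbig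
    exact ⟨fun _ => N, fun _ => hN, fun M hM hM' => ⟨0, fun _ _ => hN' M hM hM'⟩⟩
  · -- the union of all proper members
    set V : Set H := {x | ∃ M ∈ Lat A, M ≠ ⊤ ∧ x ∈ M} with hV
    have : SecondCountableTopology H := UniformSpace.secondCountable_of_separable H
    have : Nonempty V := by
      refine ⟨⟨0, ⊥, ⟨?_, ?_⟩, bot_ne_top, Submodule.zero_mem _⟩⟩
      · rw [Submodule.bot_coe]; exact isClosed_singleton
      · intro x hx
        rw [Submodule.mem_bot] at *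
        rw [hx, map_zero]
    obtain ⟨v, hv⟩ := TopologicalSpace.exists_dense_seq V
    have hv' : ∀ n, ∃ M, (M ∈ Lat A ∧ M ≠ ⊤) ∧ ((v n : V) : H) ∈ M := by
      intro n
      obtain ⟨M, hM, hM', hx⟩ := (v n).2
      exact ⟨M, ⟨hM, hM'⟩, hx⟩
    choose W hW hWv using hv'
    -- running maxima
    have hrun : ∃ K : ℕ → Submodule ℂ H, (∀ n, K n ∈ Lat A ∧ K n ≠ ⊤) ∧
        (∀ n, W n ≤ K n) ∧ (∀ n, K n ≤ K (n + 1)) := by
      set K : ℕ → Submodule ℂ H := runmax W with hKdef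
      have hK0 : K 0 = W 0 := rfl
      have hKs : ∀ n, K (n + 1) = K n ∧ ¬ (K n ≤ W (n + 1)) ∨
          K (n + 1) = W (n + 1) ∧ K n ≤ W (n + 1) := by
        intro n
        by_cases h : K n ≤ W (n + 1)
        · right
          exact ⟨if_pos h, h⟩
        · left
          exact ⟨if_neg h, h⟩
      have hKm : ∀ n, K n ∈ Lat A ∧ K n ≠ ⊤ := by
        intro n
        induction n with
        | zero => rw [hK0]; exact hW 0
        | succ n ih =>
          rcases hKs n with h | h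
          · rw [h.1]; exact ih
          · rw [h.1]; exact hW _
      refine ⟨K, hKm, ?_, ?_⟩
      · intro n
        cases n with
        | zero => rw [hK0]
        | succ n =>
          rcases hKs n with h | h
          · rw [h.1]
            exact ((hchain _ (hKm n).1 _ (hW (n + 1)).1).resolve_left h.2)
          · rw [h.1]
      · intro n
        rcases hKs n with h | h
        · rw [h.1]
        · rw [h.1]; exact h.2
    obtain ⟨K, hK1, hK2, hK3⟩ := hrun
    have hmono : Monotone K := monotone_nat_of_le_succ hK3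
    refine ⟨K, hK1, fun M hM hM' => ?_⟩
    by_cases hex : ∃ n0, M ≤ K n0
    · obtain ⟨n0, hn0⟩ := hex
      exact ⟨n0, fun n hn => hn0.trans (hmono hn)⟩
    · exfalso
      push Not at hex
      apply hbig
      refine ⟨M, ⟨hM, hM'⟩, ?_⟩
      intro N hN hN' x hx
      have hvM : ∀ n, ((v n : V) : H) ∈ M := by
        intro n
        have h1 : K n ≤ M := (hchain _ (hK1 n).1 _ hM).resolve_right (hex n)
        exact h1 (hK2 n (hWv n))
      have hxV : x ∈ V := ⟨N, hN, hN', hx⟩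
      have hcl : IsClosed ((fun w : V => (w : H)) ⁻¹' (M : Set H)) :=
        hM.1.preimage continuous_subtype_val
      have h2 : closure (Set.range v) ⊆ (fun w : V => (w : H)) ⁻¹' (M : Set H) := by
        apply closure_minimal _ hcl
        rintro _ ⟨n, rfl⟩
        exact hvM n
      have h3 : (⟨x, hxV⟩ : V) ∈ closure (Set.range v) := hv _
      exact h2 h3

/-- The vector `x`. -/
theorem exists_vector [Nontrivial H] [TopologicalSpace.SeparableSpace H] {A : H →L[ℂ] H}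
    (hchain : ∀ M ∈ Lat A, ∀ N ∈ Lat A, M ≤ N ∨ N ≤ M) :
    ∃ (μ : ℂ) (x : H), ∀ M ∈ Lat A, M ≠ ⊤ → ∀ h : H, (A h - μ • h) + x ∉ M := by
  obtain ⟨μ, hμ⟩ := exists_common hchain
  obtain ⟨K, hK1, hK2⟩ := exists_cofinal hchain
  have hy : ∀ n : ℕ, ∃ y : H, y ∈ (K n)ᗮ ∧ ‖y‖ = 1 ∧
      ‖(adjoint A) y - μ • y‖ ≤ 1 / ((n : ℝ) + 1) := by
    intro n
    have h1 := hμ (K n) (hK1 n).1 (hK1 n).2
    rw [ap, Set.mem_ofPred_eq] at h1
    push Not at h1
    obtain ⟨y, hy1, hy2⟩ := h1 (1 / ((n : ℝ) + 1)) (by positivity)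
    have hy0 : y ≠ 0 := by
      rintro rfl
      simp at hy2
    have hpos : 0 < ‖y‖ := norm_pos_iff.2 hy0
    refine ⟨((‖y‖⁻¹ : ℝ) : ℂ) • y, Submodule.smul_mem _ _ hy1, ?_, ?_⟩
    · rw [norm_smul, Complex.norm_real, Real.norm_eq_abs, abs_of_pos (by positivity),
        inv_mul_cancel₀ hpos.ne']
    · have h2 : (adjoint A) (((‖y‖⁻¹ : ℝ) : ℂ) • y) - μ • (((‖y‖⁻¹ : ℝ) : ℂ) • y) =
          ((‖y‖⁻¹ : ℝ) : ℂ) • ((adjoint A) y - μ • y) := by
        rw [map_smul, smul_sub, smul_comm]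
      rw [h2, norm_smul, Complex.norm_real, Real.norm_eq_abs, abs_of_pos (by positivity)]
      rw [inv_mul_le_iff₀ hpos]
      linarith
  choose y hyK hyn hya using hy
  -- uniform boundedness
  obtain ⟨x, hx⟩ : ∃ x : H, ¬ ∃ C : ℝ, ∀ n : ℕ, ((n : ℝ) + 1) * ‖inner ℂ (y n) x‖ ≤ C := by
    by_contra hcon
    push Not at hcon
    have hbs : ∃ C', ∀ n : ℕ, ‖((n : ℂ) + 1) • (innerSL ℂ (y n))‖ ≤ C' := by
      apply banach_steinhaus
      intro x
      obtain ⟨C, hC⟩ := hcon x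
      refine ⟨C, fun n => ?_⟩
      have h1 : ‖((n : ℂ) + 1)‖ = (n : ℝ) + 1 := by
        have : ((n : ℂ) + 1) = (((n : ℝ) + 1 : ℝ) : ℂ) := by push_cast; rfl
        rw [this, Complex.norm_real, Real.norm_eq_abs, abs_of_pos (by positivity)]
      rw [smul_apply, norm_smul, h1]
      exact hC n
    obtain ⟨C', hC'⟩ := hbs
    obtain ⟨n, hn⟩ := exists_nat_gt C'
    have h1 := hC' n
    have h2 : ‖((n : ℂ) + 1)‖ = (n : ℝ) + 1 := by
      have : ((n : ℂ) + 1) = (((n : ℝ) + 1 : ℝ) : ℂ) := by push_cast; rfl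
      rw [this, Complex.norm_real, Real.norm_eq_abs, abs_of_pos (by positivity)]
    rw [norm_smul, h2, innerSL_apply_norm, hyn, mul_one] at h1
    linarith
  refine ⟨(starRingEnd ℂ) μ, x, ?_⟩
  intro M hM hM' h hmem
  apply hx
  obtain ⟨n0, hn0⟩ := hK2 M hM hM'
  have htail : ∀ n, n0 ≤ n → ((n : ℝ) + 1) * ‖inner ℂ (y n) x‖ ≤ ‖h‖ := by
    intro n hn
    have h1 : inner ℂ (y n) ((A h - (starRingEnd ℂ) μ • h) + x) = 0 := by
      have h2 := hyK n
      rw [Submodule.mem_orthogonal'] at h2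
      exact h2 _ (hn0 n hn hmem)
    have h2 : inner ℂ (y n) (A h - (starRingEnd ℂ) μ • h) =
        inner ℂ ((adjoint A) (y n) - μ • y n) h := by
      rw [inner_sub_right, inner_sub_left, adjoint_inner_left, inner_smul_right, inner_smul_left]
    rw [inner_add_right, h2] at h1
    have h3 : inner ℂ (y n) x = -inner ℂ ((adjoint A) (y n) - μ • y n) h :=
      eq_neg_of_add_eq_zero_right h1
    rw [h3, norm_neg]
    have h4 : ‖inner ℂ ((adjoint A) (y n) - μ • y n) h‖ ≤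
        ‖(adjoint A) (y n) - μ • y n‖ * ‖h‖ := norm_inner_le_norm _ _
    have h5 : ‖(adjoint A) (y n) - μ • y n‖ * ‖h‖ ≤ 1 / ((n : ℝ) + 1) * ‖h‖ :=
      mul_le_mul_of_nonneg_right (hya n) (norm_nonneg h)
    have h6 : ((n : ℝ) + 1) * (1 / ((n : ℝ) + 1) * ‖h‖) = ‖h‖ := by
      field_simp
    calc ((n : ℝ) + 1) * ‖inner ℂ ((adjoint A) (y n) - μ • y n) h‖ ≤
        ((n : ℝ) + 1) * (1 / ((n : ℝ) + 1) * ‖h‖) :=
          mul_le_mul_of_nonneg_left (h4.trans h5) (by positivity)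
      _ = ‖h‖ := h6
  refine ⟨‖h‖ + ∑ n ∈ Finset.range n0, ((n : ℝ) + 1) * ‖inner ℂ (y n) x‖, fun n => ?_⟩
  have hsn : 0 ≤ ∑ n ∈ Finset.range n0, ((n : ℝ) + 1) * ‖inner ℂ (y n) x‖ :=
    Finset.sum_nonneg (fun i _ => by positivity)
  by_cases hn : n0 ≤ n
  · linarith [htail n hn]
  · push Not at hn
    have h1 := Finset.single_le_sum (f := fun n : ℕ => ((n : ℝ) + 1) * ‖inner ℂ (y n) x‖)
      (fun i _ => by positivity) (Finset.mem_range.2 hn)
    have h2 := norm_nonneg h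
    linarith

end chain


section extension

variable {H : Type*} [NormedAddCommGroup H] [InnerProductSpace ℂ H]

/-- The operator `(h, c) ↦ (A h + c x, μ c)` on `H ⊕ ℂ`. -/
noncomputable def ext (A : H →L[ℂ] H) (μ : ℂ) (x : H) :
    WithLp 2 (H × ℂ) →L[ℂ] WithLp 2 (H × ℂ) :=
  ((WithLp.prodContinuousLinearEquiv 2 ℂ H ℂ).symm : H × ℂ →L[ℂ] WithLp 2 (H × ℂ)) ∘L
    (((A ∘L ContinuousLinearMap.fst ℂ H ℂ) + (ContinuousLinearMap.snd ℂ H ℂ).smulRight x).prod
      (μ • ContinuousLinearMap.snd ℂ H ℂ)) ∘L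
    ((WithLp.prodContinuousLinearEquiv 2 ℂ H ℂ) : WithLp 2 (H × ℂ) →L[ℂ] H × ℂ)

theorem ext_apply (A : H →L[ℂ] H) (μ : ℂ) (x : H) (h : H) (c : ℂ) :
    ext A μ x (WithLp.toLp 2 (h, c)) = WithLp.toLp 2 (A h + c • x, μ * c) := by
  simp [ext]

/-- The subspace `M ⊕ 0`. -/
noncomputable def lift (M : Submodule ℂ H) : Submodule ℂ (WithLp 2 (H × ℂ)) :=
  (M.prod ⊥).comap ((WithLp.prodContinuousLinearEquiv 2 ℂ H ℂ) :
    WithLp 2 (H × ℂ) →L[ℂ] H × ℂ).toLinearMap

theorem mem_lift {M : Submodule ℂ H} {h : H} {c : ℂ} :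
    WithLp.toLp 2 (h, c) ∈ lift M ↔ h ∈ M ∧ c = 0 := by
  simp [lift]

theorem lift_mem {A : H →L[ℂ] H} {μ : ℂ} {x : H} {M : Submodule ℂ H} (hM : M ∈ Lat A) :
    lift M ∈ Lat (ext A μ x) := by
  constructor
  · have h1 : IsClosed ((M.prod (⊥ : Submodule ℂ ℂ) : Submodule ℂ (H × ℂ)) : Set (H × ℂ)) := by
      rw [Submodule.prod_coe]
      apply hM.1.prod
      rw [Submodule.bot_coe]
      exact isClosed_singleton
    exact h1.preimage ((WithLp.prodContinuousLinearEquiv 2 ℂ H ℂ).continuous)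
  · rintro ⟨h, c⟩ hk
    rw [ext_apply]
    rw [mem_lift] at *
    obtain ⟨h1, rfl⟩ := hk
    rw [zero_smul, add_zero, mul_zero]
    exact ⟨hM.2 h h1, rfl⟩

theorem lift_le {M N : Submodule ℂ H} : lift M ≤ lift N ↔ M ≤ N := by
  constructor
  · intro h x hx
    have h1 : WithLp.toLp 2 (x, (0 : ℂ)) ∈ lift M := mem_lift.2 ⟨hx, rfl⟩
    exact (mem_lift.1 (h h1)).1
  · rintro h ⟨y, c⟩ hk
    rw [mem_lift] at *
    exact ⟨h hk.1, hk.2⟩

theorem lift_ne_top {M : Submodule ℂ H} : lift M ≠ ⊤ := by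
  intro h
  have h1 : WithLp.toLp 2 ((0 : H), (1 : ℂ)) ∈ lift M := by rw [h]; exact Submodule.mem_top
  exact one_ne_zero (mem_lift.1 h1).2

theorem lat_ext {A : H →L[ℂ] H} {μ : ℂ} {x : H}
    (hx : ∀ M ∈ Lat A, M ≠ ⊤ → ∀ h : H, (A h - μ • h) + x ∉ M)
    {N : Submodule ℂ (WithLp 2 (H × ℂ))} (hN : N ∈ Lat (ext A μ x)) :
    N = ⊤ ∨ ∃ M ∈ Lat A, N = lift M := by
  -- the slice
  set J : H →L[ℂ] WithLp 2 (H × ℂ) :=
    ((WithLp.prodContinuousLinearEquiv 2 ℂ H ℂ).symm : H × ℂ →L[ℂ] WithLp 2 (H × ℂ)) ∘L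
      (ContinuousLinearMap.inl ℂ H ℂ) with hJ
  have hJa : ∀ h : H, J h = WithLp.toLp 2 (h, (0 : ℂ)) := by
    intro h
    simp [hJ]
  set M : Submodule ℂ H := N.comap J.toLinearMap with hMdef
  have hmemM : ∀ h : H, h ∈ M ↔ WithLp.toLp 2 (h, (0 : ℂ)) ∈ N := by
    intro h
    rw [hMdef, Submodule.mem_comap, ← hJa]
    rfl
  have hM : M ∈ Lat A := by
    constructor
    · exact hN.1.preimage J.continuous
    · intro h hh
      rw [hmemM] at *
      have := hN.2 _ hh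
      rw [ext_apply, zero_smul, add_zero, mul_zero] at this
      exact this
  by_cases hcase : ∀ k ∈ N, (WithLp.ofLp k).2 = 0
  · right
    refine ⟨M, hM, ?_⟩
    ext k
    obtain ⟨h, c⟩ := k
    rw [mem_lift, hmemM]
    constructor
    · intro hk
      have hc : c = 0 := hcase _ hk
      subst hc
      exact ⟨hk, rfl⟩
    · rintro ⟨hk, rfl⟩
      exact hk
  · left
    push Not at hcase
    obtain ⟨k, hk, hk2⟩ := hcase
    obtain ⟨h0, c⟩ := k
    have hc : c ≠ 0 := hk2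
    -- normalise
    set h : H := c⁻¹ • h0 with hh
    have h1 : WithLp.toLp 2 (h, (1 : ℂ)) ∈ N := by
      have := N.smul_mem c⁻¹ hk
      have heq : c⁻¹ • (WithLp.toLp 2 (h0, c) : WithLp 2 (H × ℂ)) = WithLp.toLp 2 (h, (1 : ℂ)) := by
        rw [← WithLp.toLp_smul, Prod.smul_mk, smul_eq_mul, inv_mul_cancel₀ hc]
      rw [heq] at this
      exact this
    have hMtop : M = ⊤ := by
      by_contra hne
      apply hx M hM hne h
      rw [hmemM]
      have h2 := N.sub_mem (hN.2 _ h1) (N.smul_mem μ h1)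
      rw [ext_apply] at h2
      have heq : (WithLp.toLp 2 (A h + (1 : ℂ) • x, μ * 1) : WithLp 2 (H × ℂ)) -
          μ • WithLp.toLp 2 (h, (1 : ℂ)) = WithLp.toLp 2 ((A h - μ • h) + x, (0 : ℂ)) := by
        rw [← WithLp.toLp_smul, ← WithLp.toLp_sub, Prod.smul_mk, Prod.mk_sub_mk, one_smul,
          smul_eq_mul, sub_self]
        congr 2
        abel
      rw [heq] at h2
      exact h2
    rw [eq_top_iff]
    rintro ⟨y, d⟩ -
    have h2 : WithLp.toLp 2 (y - d • h, (0 : ℂ)) ∈ N := by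
      rw [← hmemM, hMtop]
      exact Submodule.mem_top
    have h3 := N.add_mem h2 (N.smul_mem d h1)
    have heq : (WithLp.toLp 2 (y - d • h, (0 : ℂ)) : WithLp 2 (H × ℂ)) +
        d • WithLp.toLp 2 (h, (1 : ℂ)) = WithLp.toLp 2 (y, d) := by
      rw [← WithLp.toLp_smul, ← WithLp.toLp_add, Prod.smul_mk, Prod.mk_add_mk, smul_eq_mul,
        mul_one, zero_add, sub_add_cancel]
    rw [heq] at h3
    exact h3

theorem top_mem_lat {H : Type*} [NormedAddCommGroup H] [InnerProductSpace ℂ H] (A : H →L[ℂ] H) :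
    (⊤ : Submodule ℂ H) ∈ Lat A :=
  ⟨by rw [Submodule.top_coe]; exact isClosed_univ, fun _ _ => Submodule.mem_top⟩

end extension

/-- Sanity check: the two-element chain is attainable (take the zero operator on `ℂ`). -/
theorem attainable_two : Attainable (Fin 2) := by
  refine ⟨ℂ, inferInstance, inferInstance, inferInstance, inferInstance, inferInstance, 0, ⟨?_⟩⟩
  have hbot : (⊥ : Submodule ℂ ℂ) ∈ Lat (0 : ℂ →L[ℂ] ℂ) := by
    refine ⟨?_, fun x _ => ?_⟩
    · rw [Submodule.bot_coe]; exact isClosed_singleton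
    · simp
  let f : Fin 2 → Lat (0 : ℂ →L[ℂ] ℂ) := fun i => if i = 0 then ⟨⊥, hbot⟩ else ⟨⊤, top_mem_lat _⟩
  have hmono : StrictMono f := by
    intro a b hab
    have ha : a = 0 := by omega
    have hb : b = 1 := by omega
    subst ha hb
    change (⟨⊥, hbot⟩ : Lat (0 : ℂ →L[ℂ] ℂ)) < ⟨⊤, top_mem_lat _⟩
    rw [Subtype.mk_lt_mk]
    exact bot_lt_top
  have hsurj : Function.Surjective f := by
    rintro ⟨N, hN⟩
    rcases eq_bot_or_eq_top N with rfl | rfl
    · exact ⟨0, rfl⟩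
    · exact ⟨1, rfl⟩
  exact hmono.orderIsoOfSurjective f hsurj

/-- If a totally ordered set `L` is order-isomorphic to the lattice of invariant subspaces of an
operator on a nonzero separable complex Hilbert space, then so is `L + 1`. -/
theorem result : ∀ (L : Type u) [LinearOrder L], Attainable L → Attainable (WithTop L) := by
  intro L _ hL
  obtain ⟨H, i1, i2, i3, i4, i5, A, ⟨e⟩⟩ := hL
  have hchain : ∀ M ∈ Lat A, ∀ N ∈ Lat A, M ≤ N ∨ N ≤ M := by
    intro M hM N hN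
    rcases le_total (e.symm ⟨M, hM⟩) (e.symm ⟨N, hN⟩) with h | h
    · left
      have := e.symm.le_iff_le.1 h
      exact this
    · right
      have := e.symm.le_iff_le.1 h
      exact this
  obtain ⟨μ, x, hx⟩ := exists_vector hchain
  refine ⟨WithLp 2 (H × ℂ), inferInstance, inferInstance, inferInstance, inferInstance,
    inferInstance, ext A μ x, ⟨?_⟩⟩
  let f : WithTop L → Lat (ext A μ x) := fun a =>
    match a with
    | ⊤ => ⟨⊤, top_mem_lat _⟩
    | (l : L) => ⟨lift (e l).1, lift_mem (e l).2⟩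
  have hft : f ⊤ = ⟨⊤, top_mem_lat _⟩ := rfl
  have hfl : ∀ l : L, f (l : WithTop L) = ⟨lift (e l).1, lift_mem (e l).2⟩ := fun l => rfl
  have hmono : StrictMono f := by
    intro a b hab
    induction b using WithTop.recTopCoe with
    | top =>
      induction a using WithTop.recTopCoe with
      | top => exact absurd hab (lt_irrefl _)
      | coe l =>
        rw [hft, hfl, Subtype.mk_lt_mk, lt_top_iff_ne_top]
        exact lift_ne_top
    | coe l' =>
      induction a using WithTop.recTopCoe with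
      | top => exact absurd hab (not_top_lt)
      | coe l =>
        have hll : l < l' := WithTop.coe_lt_coe.1 hab
        have h1 : e l < e l' := e.lt_iff_lt.2 hll
        rw [hfl, hfl, Subtype.mk_lt_mk]
        have h2 : (e l).1 < (e l').1 := h1
        rw [lt_iff_le_not_ge] at *
        rw [lift_le, lift_le]
        exact h2
  have hsurj : Function.Surjective f := by
    rintro ⟨N, hN⟩
    rcases lat_ext hx hN with rfl | ⟨M, hM, rfl⟩
    · exact ⟨⊤, rfl⟩
    · refine ⟨((e.symm ⟨M, hM⟩ : L) : WithTop L), ?_⟩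
      rw [hfl]
      apply Subtype.ext
      simp
  exact hmono.orderIsoOfSurjective f hsurj

end Pool.Agent.Results.MP_282bcf_an.TopElement
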